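import Pool.Agent.T2H23.ED.All

/-!
# MP_625b79_ag: the Euclidean distance degree of the secant variety of the rational normal curve

`EDdeg (σ_2 (v_d (P^1))) = (3 d^2 - 9 d + 2) / 2` for all `d ≥ 4` (Frobenius form).

The definitions (`V`, `pw`, `B`, `IX`, `Sec`, `dP`, `Tan`, `Crit`) are in `Pool/Agent/T2H23/ED/Defs.lean`.
-/

set_option autoImplicit false

noncomputable section

namespace Pool.Agent.Results.MP_625b79_ag.SecantEDDegree

open Pool.Agent.T2H23.ED

/-- `N` is the number of critical points of the squared distance from `u` on the smooth locus of the cone over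
the secant variety, for all `u` outside a hypersurface -/
def IsEDDegree (d N : ℕ) : Prop := ∃ D : MvPolynomial (Fin (d + 1)) ℂ, D ≠ 0 ∧
  ∀ u : V d, MvPolynomial.eval u D ≠ 0 → (Crit d u).Finite ∧ (Crit d u).ncard = N

theorem result (d N : ℕ) (hd : 4 ≤ d) : IsEDDegree d N ↔ 2 * N + 9 * d = 3 * d ^ 2 + 2 := by
  obtain ⟨D, hD, h⟩ := pAll d hd
  constructor
  · rintro ⟨E, hE, h'⟩
    obtain ⟨u, hu⟩ : ∃ u : V d, MvPolynomial.eval u (D * E) ≠ 0 := by
      by_contra hc
      push Not at hc
      refine mul_ne_zero hD hE (MvPolynomial.funext fun u => ?_)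
      rw [hc u, map_zero]
    rw [map_mul] at hu
    have h1 := (h u (left_ne_zero_of_mul hu)).2
    have h2 := (h' u (right_ne_zero_of_mul hu)).2
    rw [h2] at h1
    exact h1
  · intro hN
    refine ⟨D, hD, fun u hu => ⟨(h u hu).1, ?_⟩⟩
    have := (h u hu).2
    omega

end Pool.Agent.Results.MP_625b79_ag.SecantEDDegree
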